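import Pool.Agent.Helper66_D2.Tool

/-!
# Part D2, modules PRT and TRA: traces from `1` to `P`, homomorphisms from `K` to `N`
-/

open scoped BigOperators

noncomputable section

namespace Pool.Agent.PP.CD2.H39

open Pool.Agent.PP Pool.Agent.PP.CD2.H66 Pool.Agent.Helper51_AWC Pool.Agent.Helper79_WRA

section tools

variable {F : Type} [Field F] {G : Type} [Group G] [Finite G] {V V' : Type} [AddCommGroup V]
  [Module F V] [AddCommGroup V'] [Module F V']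

theorem trP_apply' (ρ : Representation F G V) (ρ' : Representation F G V') (P : Subgroup G)
    [Fintype P] (φ : V →ₗ[F] V') (v : V) :
    trP ρ ρ' P φ v = ∑ p : P, ρ' p (φ (ρ (p : G)⁻¹ v)) := by
  unfold trP
  rw [finsum_eq_sum_of_fintype, LinearMap.sum_apply]
  rfl

/-- `(trP P ψ) a = trP P (ψ a)` if `a` commutes with `P` -/
theorem trP_comp (ρ : Representation F G V) (ρ' : Representation F G V') (P : Subgroup G)
    (ψ : V →ₗ[F] V') {a : G → F} (ha : CmF P a) :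
    trP ρ ρ' P ψ ∘ₗ evV ρ a = trP ρ ρ' P (ψ ∘ₗ evV ρ a) := by
  have := Fintype.ofFinite P
  apply LinearMap.ext
  intro v
  rw [LinearMap.comp_apply, trP_apply', trP_apply']
  refine Finset.sum_congr rfl fun p _ => ?_
  rw [LinearMap.comp_apply, evV_cm ρ ha (inv_mem p.2)]

/-- `trW c (h a) = h (trW c a)` if `h` commutes with the support of `c` -/
theorem trW_comp (ρ : Representation F G V) (ρ' : Representation F G V') {K : Subgroup G}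
    {c : G → F} (hc : ∀ g, g ∉ K → c g = 0) {h : V →ₗ[F] V'} (hh : HomOn K ρ ρ' h)
    (φ : V →ₗ[F] V) : trW c ρ ρ' (h ∘ₗ φ) = h ∘ₗ trW c ρ ρ φ := by
  have := Fintype.ofFinite G
  apply LinearMap.ext
  intro v
  rw [LinearMap.comp_apply, D66.trW_apply, D66.trW_apply, map_sum]
  refine Finset.sum_congr rfl fun g _ => ?_
  by_cases hg : g ∈ K
  · rw [map_smul, hh g hg, LinearMap.comp_apply]
  · rw [hc g hg, zero_smul, zero_smul, map_zero]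

/-- a cyclic group normalises its subgroups -/
theorem le_NY {P : Subgroup G} (hP : IsCyclic P) {y : G} (hy : y ∈ P) : P ≤ NY y := by
  intro p hp
  have hcomm : p * y = y * p := by
    have := hP.commGroup.mul_comm (⟨p, hp⟩ : P) ⟨y, hy⟩
    exact congrArg Subtype.val this
  refine CY_le_NY y ?_
  unfold CY
  rw [Subgroup.mem_centralizer_iff]
  intro z hz
  obtain ⟨k, rfl⟩ := Subgroup.mem_zpowers_iff.1 hz
  exact (Commute.zpow_right (show Commute p y from hcomm) k).symm.eq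

/-- `h = trW c₁ (h z₁)` and `z₁` -/
theorem prj_one {ℓ n : ℕ} {N P : Subgroup G} {y₁ : G} {b w : G → F} (hD : D2S ℓ n N P y₁ b w) :
    ∃ c₁ z₁ : G → F, IsW (N ⊓ NY y₁) P c₁ ∧ CmF P z₁ ∧
      ∀ (V V' : Type) [AddCommGroup V] [Module F V] [AddCommGroup V'] [Module F V']
        (ρ : Representation F G V) (ρ' : Representation F G V') (h : V →ₗ[F] V'),
        HomOn (N ⊓ NY y₁) ρ ρ' h →
        trW c₁ ρ ρ' (h ∘ₗ evV ρ z₁) = h ∘ₗ evV ρ (bY y₁ b) := by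
  obtain ⟨c₁, z₁, hc₁, hz1, hz2, hz3⟩ := hD.prj1
  refine ⟨c₁, z₁, hc₁, fun p hp x => hz2 p hp x, ?_⟩
  intro V V' _ _ _ _ ρ ρ' h hh
  rw [trW_comp ρ ρ' hc₁.supp hh, ← D66.evV_tr ρ hz3]

end tools

/-- PRT -/
theorem prt (htrf : TrfStmt) (hwgt : WgtStmt) : PrtStmt := by
  intro ℓ _ F _ hF G _ _ n N P y₁ b w hD V V' _ _ _ _ _ ρ ρ' h hh hψ j hj v hv hw
  obtain ⟨ψ, hψ⟩ := hψ
  obtain ⟨c₁, z₁, hc₁, hz, hkey⟩ := prj_one hD
  have hPK : P ≤ N ⊓ NY y₁ := le_inf hD.le (le_NY hD.cyc hD.mem)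
  obtain ⟨-, hw1⟩ := hwgt F G (N ⊓ NY y₁) P hPK
  obtain ⟨-, hw2⟩ := hw1 V V' ρ ρ' c₁ hc₁
  have h1 := hkey V V' ρ ρ' h hh
  have h2 : h ∘ₗ evV ρ z₁ = trP ρ ρ' P (ψ ∘ₗ evV ρ z₁) := by
    rw [hψ, trP_comp ρ ρ' P ψ hz]
  have h3 : trW c₁ ρ ρ' (h ∘ₗ evV ρ z₁) = trP ρ ρ' (N ⊓ NY y₁) (ψ ∘ₗ evV ρ z₁) := by
    rw [h2]
    exact hw2 _
  have h4 : h v = trP ρ ρ' (N ⊓ NY y₁) (ψ ∘ₗ evV ρ z₁) v := by
    rw [← h3, h1, LinearMap.comp_apply, hv]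
  rw [h4]
  exact htrf F G (N ⊓ CY y₁) (N ⊓ NY y₁) (bY y₁ b) w (ℓ ^ (n + 1)) hD.ums
    (inf_le_inf_left N (CY_le_NY y₁)) V V' ρ ρ' (ψ ∘ₗ evV ρ z₁) j hj v hv hw

/-- TRA -/
theorem tra (hprt : PrtStmt) (hmcq : McqStmt) (hwgt : WgtStmt) : TraStmt := by
  intro ℓ _ F _ hF G _ _ n N P y₁ b w hD V V' _ _ _ _ _ ρ ρ' g hg hgb
  obtain ⟨c₁, z₁, hc₁, hz, hkey⟩ := prj_one hD
  obtain ⟨⟨c, hc⟩, hw1⟩ := hwgt F G N P hD.le
  obtain ⟨hw2, -⟩ := hw1 V V' ρ ρ' c hc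
  have hPK : P ≤ N ⊓ NY y₁ := le_inf hD.le (le_NY hD.cyc hD.mem)
  have hφ : HomOn P ρ ρ' (g ∘ₗ evV ρ z₁) := by
    intro p hp v
    rw [LinearMap.comp_apply, LinearMap.comp_apply, evV_cm ρ hz hp, hg p (hPK hp)]
  obtain ⟨hf, -⟩ := hw2 _ hφ
  obtain ⟨ψ, hψ⟩ := hmcq ℓ F G n N P y₁ hD.le hD.cyc hD.card hD.mem hD.ord V V' ρ ρ' c c₁ hc hc₁ _
    hφ
  have hgb' : g ∘ₗ evV ρ (bY y₁ b) = g := LinearMap.ext hgb
  rw [hkey V V' ρ ρ' g hg, hgb'] at hψ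
  refine ⟨trW c ρ ρ' (g ∘ₗ evV ρ z₁), hf, ?_⟩
  intro j hj v hv hw
  have hsub : trW c ρ ρ' (g ∘ₗ evV ρ z₁) - g = trP ρ ρ' P ψ := by
    rw [hψ, add_sub_cancel_left]
  have h1 : HomOn (N ⊓ NY y₁) ρ ρ' (trW c ρ ρ' (g ∘ₗ evV ρ z₁) - g) := by
    intro m hm u
    rw [LinearMap.sub_apply, LinearMap.sub_apply, hf m hm.1, hg m hm, map_sub]
  exact hprt ℓ F hF G n N P y₁ b w hD V V' ρ ρ' _ h1 ⟨ψ, hsub⟩ j hj v hv hw

end Pool.Agent.PP.CD2.H39
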